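import Mathlib

namespace Pool.Agent.Results.MP_577ba1_lc.Counter

/-- well-quasi-orders on words -/
def IsWqo {A : Type} (r : List A → List A → Prop) : Prop :=
  (∀ x, r x x) ∧ (∀ x y z, r x y → r y z → r x z) ∧
    ∀ f : ℕ → List A, ∃ i j, i < j ∧ r (f i) (f j)

/-- one derivation step of the production system `P` -/
def Step {A : Type} (P : Finset (List A × List A)) (x y : List A) : Prop :=
  ∃ p ∈ P, ∃ s t, x = s ++ p.1 ++ t ∧ y = s ++ p.2 ++ t

def le (x y : List Bool) : Prop :=
  (2 ≤ x.count true ∧ 2 ≤ y.count true ∧ x.length ≤ y.length) ∨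
    (x.count true = y.count true ∧ x.Sublist y)

theorem le_wqo : IsWqo le := by
  refine ⟨fun x => Or.inr ⟨rfl, List.Sublist.refl x⟩, ?_, fun f => ?_⟩
  · rintro x y z (⟨a, b, c⟩ | ⟨a, b⟩) (⟨d, e, g⟩ | ⟨d, e⟩)
    · exact Or.inl ⟨a, e, c.trans g⟩
    · exact Or.inl ⟨a, d ▸ b, c.trans e.length_le⟩
    · exact Or.inl ⟨a ▸ d, e, b.length_le.trans g⟩
    · exact Or.inr ⟨a.trans d, b.trans e⟩
  · have h0 : (Set.univ : Set Bool).PartiallyWellOrderedOn (· = ·) :=
      Set.finite_univ.partiallyWellOrderedOn
    have h1 := Set.PartiallyWellOrderedOn.partiallyWellOrderedOn_sublistForall₂ (· = ·) h0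
    have hp : IsPreorder (List Bool) (List.SublistForall₂ (· = ·)) := ⟨⟩
    obtain ⟨g, hg⟩ := h1.exists_monotone_subseq (f := f) (fun n => by simp)
    have hs : ∀ m n, m ≤ n → (f (g m)).Sublist (f (g n)) := fun m n h => by
      obtain ⟨l, h2, h3⟩ := List.sublistForall₂_iff.1 (hg m n h)
      rw [List.forall₂_eq_eq_eq] at h2
      rwa [h2]
    have key : ∀ m n, m < n → min ((f (g m)).count true) 2 = min ((f (g n)).count true) 2 →
        ∃ i j, i < j ∧ le (f i) (f j) := fun m n h e => by
      refine ⟨g m, g n, g.strictMono h, ?_⟩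
      by_cases h2 : 2 ≤ (f (g m)).count true
      · exact Or.inl ⟨h2, by omega, (hs m n h.le).length_le⟩
      · exact Or.inr ⟨by omega, hs m n h.le⟩
    obtain ⟨m, n, hne, e⟩ := Finite.exists_ne_map_eq_of_infinite
      (fun n : ℕ => (⟨min ((f (g n)).count true) 2, by omega⟩ : Fin 3))
    have e' := congrArg Fin.val e
    rcases lt_or_gt_of_ne hne with h | h
    · exact key m n h e'
    · exact key n m h e'.symm

def sp (N : ℕ) : ℕ → List Bool → Prop
  | _, [] => True
  | c, false :: x => sp N (c + 1) x
  | c, true :: x => N ≤ c ∧ sp N 0 x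

theorem sp_mono (N : ℕ) : ∀ (x : List Bool) (c d : ℕ), c ≤ d → sp N c x → sp N d x
  | [], _, _, _, _ => trivial
  | false :: x, c, d, h, h1 => sp_mono N x (c + 1) (d + 1) (by omega) h1
  | true :: _, _, _, h, h1 => ⟨h1.1.trans h, h1.2⟩

theorem sp_sub (N : ℕ) {x y : List Bool} (h : x.Sublist y) :
    x.count true = y.count true → ∀ c, sp N c x → sp N c y := by
  induction h with
  | slnil => exact fun _ _ h => h
  | @cons l₁ l₂ a h ih =>
    intro e c h1
    have := h.count_le true
    cases a
    · exact sp_mono N l₂ c (c + 1) (by omega) (ih (by simpa using e) c h1)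
    · simp at e; omega
  | @cons_cons l₁ l₂ a h ih =>
    intro e c h1
    cases a
    · exact ih (by simpa using e) _ h1
    · exact ⟨h1.1, ih (by simpa using e) _ h1.2⟩

theorem sp_zero (N : ℕ) (t : List Bool) : ∀ (u : List Bool) (c : ℕ), sp N c (u ++ t) →
    c + u.length ≤ N → u.count true = 0
  | [], _, _, _ => rfl
  | false :: u, c, h, h1 => by
    simpa using sp_zero N t u (c + 1) h (by simp at h1; omega)
  | true :: u, c, h, h1 => by
    have := h.1
    simp at h1
    omega

theorem sp_one (N : ℕ) (t : List Bool) : ∀ (u : List Bool) (c : ℕ), sp N c (u ++ t) →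
    u.length ≤ N → u.count true ≤ 1
  | [], _, _, _ => by simp
  | false :: u, c, h, h1 => by
    simpa using sp_one N t u (c + 1) h (by simp at h1; omega)
  | true :: u, c, h, h1 => by
    have := sp_zero N t u 0 h.2 (by simp at h1; omega)
    simp [this]

theorem sp_drop (N : ℕ) (t : List Bool) : ∀ (s : List Bool) (c : ℕ), sp N c (s ++ t) →
    ∃ d, sp N d t
  | [], c, h => ⟨c, h⟩
  | false :: s, c, h => sp_drop N t s (c + 1) h
  | true :: s, _, h => sp_drop N t s 0 h.2

def w (N : ℕ) : ℕ → List Bool
  | 0 => []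
  | k + 1 => true :: (List.replicate N false ++ w N k)

theorem w_count (N k : ℕ) : (w N k).count true = k := by
  induction k with
  | zero => rfl
  | succ k ih => simp [w, ih, List.count_replicate]

theorem sp_rep (N : ℕ) (x : List Bool) : ∀ n c, sp N (c + n) x →
    sp N c (List.replicate n false ++ x)
  | 0, _, h => h
  | n + 1, c, h => sp_rep N x n (c + 1) (by rwa [show c + 1 + n = c + (n + 1) by ring])

theorem w_sp (N k : ℕ) : sp N N (w N k) := by
  induction k with
  | zero => trivial
  | succ k ih => exact ⟨le_rfl, sp_rep N _ N 0 (by simpa using ih)⟩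

theorem result : ∃ r : List Bool → List Bool → Prop, IsWqo r ∧
    (∀ x y u v, r x y → r (u ++ x ++ v) (u ++ y ++ v)) ∧
    (∀ x y, r x y → x.length ≤ y.length) ∧
    ∀ P : Finset (List Bool × List Bool), (∀ p ∈ P, r p.1 p.2) →
      ¬ IsWqo (Relation.ReflTransGen (Step P)) := by
  refine ⟨le, le_wqo, ?_, ?_, ?_⟩
  · rintro x y u v (⟨a, b, c⟩ | ⟨a, b⟩)
    · left
      simp only [List.count_append, List.length_append]
      omega
    · right
      refine ⟨by simp only [List.count_append, a], ?_⟩
      exact ((List.Sublist.refl u).append b).append (List.Sublist.refl v)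
  · rintro x y (⟨-, -, c⟩ | ⟨-, b⟩)
    · exact c
    · exact b.length_le
  · rintro P hP ⟨-, -, h⟩
    set N := P.sup (fun p => p.1.length) with hN
    have key : ∀ x y, Relation.ReflTransGen (Step P) x y → sp N N x →
        sp N N y ∧ x.count true = y.count true := by
      intro x y hxy hx
      induction hxy with
      | refl => exact ⟨hx, rfl⟩
      | tail _ hs ih =>
        obtain ⟨p, hp, s, t, rfl, rfl⟩ := hs
        obtain ⟨d, hd⟩ := sp_drop N (p.1 ++ t) s N (by simpa using ih.1)
        have h1 := sp_one N t p.1 d hd (Finset.le_sup (f := fun p => p.1.length) hp)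
        rcases hP p hp with ⟨a, -⟩ | ⟨a, b⟩
        · omega
        · have e : (s ++ p.1 ++ t).count true = (s ++ p.2 ++ t).count true := by
            simp only [List.count_append, a]
          exact ⟨sp_sub N (((List.Sublist.refl s).append b).append (List.Sublist.refl t)) e N ih.1,
            ih.2.trans e⟩
    obtain ⟨i, j, hij, hr⟩ := h (w N)
    have := (key _ _ hr (w_sp N i)).2
    rw [w_count, w_count] at this
    omega

end Pool.Agent.Results.MP_577ba1_lc.Counter
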